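import Mathlib

/-!
# Noetherian domains all of whose height-one primes are associated to the normalization quotient

`A` is a Noetherian factorial domain of characteristic two with fraction field `K`, and `D : A → K`
is a derivation such that every `1 / g` is a value of `D`. The ring of the problem is
`R = {a ∈ A : D a ∈ A}`.
-/

namespace Pool.Agent.Results.MP_b58525_ag.AllDimensions

/-! ### The notions of the problem -/

/-- The normalization `Rⁿ` of a domain `R`: its integral closure in its fraction field. -/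
noncomputable def normalization (R : Type) [CommRing R] [IsDomain R] :
    Subalgebra R (FractionRing R) := integralClosure R (FractionRing R)

/-- `R` as a submodule of its normalization. -/
noncomputable def image (R : Type) [CommRing R] [IsDomain R] : Submodule R (normalization R) :=
  LinearMap.range (Algebra.linearMap R (normalization R))

/-- `P` is an associated prime of `M`: `P` is prime and `P = Ann m` for some `m ∈ M`. -/
def IsAssociated {R : Type} [CommRing R] (P : Ideal R) (M : Type) [AddCommGroup M]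
    [Module R M] : Prop := P.IsPrime ∧ ∃ m : M, ∀ r : R, r ∈ P ↔ r • m = 0

/-- All the primes of height one are associated primes of `Rⁿ / R`. -/
def HeightOneAssociated (R : Type) [CommRing R] [IsDomain R] : Prop :=
  ∀ P : Ideal R, P.IsPrime → P.height = 1 → IsAssociated P (normalization R ⧸ image R)

section General

variable {A : Type} [CommRing A] [IsDomain A] {K : Type} [Field K] [Algebra A K]
  [IsFractionRing A K]

/-- A derivation `A → K`. -/
structure Der (A K : Type*) [CommRing A] [Field K] [Algebra A K] where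
  /-- the underlying map -/
  toFun : A → K
  map_add' : ∀ a b, toFun (a + b) = toFun a + toFun b
  leibniz' : ∀ a b, toFun (a * b) = algebraMap A K a * toFun b + algebraMap A K b * toFun a

instance : CoeFun (Der A K) (fun _ => A → K) := ⟨Der.toFun⟩

namespace Der

variable (D : Der A K)

lemma map_add (a b : A) : D (a + b) = D a + D b := D.map_add' a b

lemma leibniz (a b : A) : D (a * b) = algebraMap A K a * D b + algebraMap A K b * D a :=
  D.leibniz' a b

lemma map_zero : D 0 = 0 := by
  have h := D.map_add 0 0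
  rw [add_zero] at h
  linear_combination -h

lemma map_one : D 1 = 0 := by
  have h := D.leibniz 1 1
  rw [mul_one, _root_.map_one, one_mul] at h
  linear_combination -h

lemma map_neg (a : A) : D (-a) = -D a := by
  have h := D.map_add a (-a)
  rw [add_neg_cancel, D.map_zero] at h
  linear_combination -h

lemma map_sub (a b : A) : D (a - b) = D a - D b := by
  rw [sub_eq_add_neg, D.map_add, D.map_neg, sub_eq_add_neg]

end Der

/-- The subring `{a ∈ A : D a ∈ A}` of `A`. -/
def ringOf (D : Der A K) : Subring A where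
  carrier := {a | ∃ e : A, D a = algebraMap A K e}
  mul_mem' := by
    rintro a b ⟨e, he⟩ ⟨f, hf⟩
    refine ⟨a * f + b * e, ?_⟩
    rw [D.leibniz, he, hf, map_add, map_mul, map_mul]
  one_mem' := ⟨0, by rw [D.map_one, map_zero]⟩
  add_mem' := by
    rintro a b ⟨e, he⟩ ⟨f, hf⟩
    exact ⟨e + f, by rw [D.map_add, he, hf, map_add]⟩
  zero_mem' := ⟨0, by rw [D.map_zero, map_zero]⟩
  neg_mem' := by
    rintro a ⟨e, he⟩
    exact ⟨-e, by rw [D.map_neg, he, map_neg]⟩

variable (D : Der A K)

/-- The value of the derivation on the elements of the ring. -/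
noncomputable def delta (r : ringOf D) : A := r.2.choose

lemma delta_spec (r : ringOf D) : D (r : A) = algebraMap A K (delta D r) := r.2.choose_spec

lemma delta_eq {r : ringOf D} {e : A} (h : D (r : A) = algebraMap A K e) : delta D r = e :=
  IsFractionRing.injective A K ((delta_spec D r).symm.trans h)

lemma delta_add (r s : ringOf D) : delta D (r + s) = delta D r + delta D s := by
  apply delta_eq
  rw [Subring.coe_add, D.map_add, delta_spec, delta_spec, map_add]

lemma delta_mul (r s : ringOf D) : delta D (r * s) = (r : A) * delta D s + (s : A) * delta D r := by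
  apply delta_eq
  rw [Subring.coe_mul, D.leibniz, delta_spec, delta_spec, map_add, map_mul, map_mul]

lemma delta_one : delta D 1 = 0 := by
  apply delta_eq
  rw [Subring.coe_one, D.map_one, map_zero]

lemma delta_zero : delta D 0 = 0 := by
  apply delta_eq
  rw [Subring.coe_zero, D.map_zero, map_zero]

/-- The map `R → (A / s)[ε]`. -/
noncomputable def toDual (s : A) : ringOf D →+* DualNumber (A ⧸ Ideal.span {s}) where
  toFun r := TrivSqZeroExt.inl (Ideal.Quotient.mk _ (r : A)) +
    TrivSqZeroExt.inr (Ideal.Quotient.mk _ (delta D r))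
  map_one' := by
    rw [delta_one, map_zero, TrivSqZeroExt.inr_zero, add_zero, Subring.coe_one, map_one,
      TrivSqZeroExt.inl_one]
  map_zero' := by
    rw [delta_zero, map_zero, TrivSqZeroExt.inr_zero, add_zero, Subring.coe_zero, map_zero,
      TrivSqZeroExt.inl_zero]
  map_add' r t := by
    rw [delta_add, map_add, Subring.coe_add, map_add, TrivSqZeroExt.inl_add,
      TrivSqZeroExt.inr_add]
    ring
  map_mul' r t := by
    rw [delta_mul, Subring.coe_mul]
    ext
    · simp
    · simp [mul_comm]

variable [CharP A 2]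

lemma D_mul_self (u : A) : D (u * u) = 0 := by
  have h2 : (2 : K) = 0 := by
    rw [← map_ofNat (algebraMap A K) 2, ← Nat.cast_ofNat, CharP.cast_eq_zero, map_zero]
  rw [D.leibniz, ← two_mul, h2, zero_mul]

lemma D_sq_mul (u a : A) : D (u * u * a) = algebraMap A K (u * u) * D a := by
  rw [D.leibniz, D_mul_self, mul_zero, add_zero]

lemma sq_mem (u : A) : u * u ∈ ringOf D := ⟨0, by rw [D_mul_self, map_zero]⟩

/-- Every element of `K` is a value of `D` up to an element of `A`. -/
lemma density (hD : ∀ g : A, g ≠ 0 → ∃ b : A, D b = (algebraMap A K g)⁻¹) (w : K) :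
    ∃ a e : A, D a = w + algebraMap A K e := by
  obtain ⟨c, g, hg, rfl⟩ := IsFractionRing.div_surjective (A := A) w
  obtain ⟨u, v, hv, huv⟩ := IsFractionRing.div_surjective (A := A) (D (c * g))
  have hg0 : g ≠ 0 := nonZeroDivisors.ne_zero hg
  have hv0 : v ≠ 0 := nonZeroDivisors.ne_zero hv
  obtain ⟨b, hb⟩ := hD (g * g * (v * v)) (mul_ne_zero (mul_ne_zero hg0 hg0) (mul_ne_zero hv0 hv0))
  have hg1 : algebraMap A K g ≠ 0 := by
    rw [Ne, map_eq_zero_iff _ (IsFractionRing.injective A K)]
    exact hg0
  have hv1 : algebraMap A K v ≠ 0 := by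
    rw [Ne, map_eq_zero_iff _ (IsFractionRing.injective A K)]
    exact hv0
  refine ⟨v * v * (c * g * b), u * v * b, ?_⟩
  rw [D_sq_mul, D.leibniz, hb, ← huv]
  simp only [map_mul]
  field_simp

lemma toDual_surjective (hD : ∀ g : A, g ≠ 0 → ∃ b : A, D b = (algebraMap A K g)⁻¹) {u : A}
    (hu : u ≠ 0) : Function.Surjective (toDual D (u * u)) := by
  intro z
  obtain ⟨a, ha⟩ := Ideal.Quotient.mk_surjective z.fst
  obtain ⟨e, he⟩ := Ideal.Quotient.mk_surjective z.snd
  obtain ⟨c, e', hc⟩ := density D hD ((D a - algebraMap A K e) / algebraMap A K (u * u))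
  have hu1 : algebraMap A K (u * u) ≠ 0 := by
    rw [Ne, map_eq_zero_iff _ (IsFractionRing.injective A K)]
    exact mul_ne_zero hu hu
  have hr : D (a - u * u * c) = algebraMap A K (e - u * u * e') := by
    rw [D.map_sub, D_sq_mul, hc, map_sub, map_mul _ (u * u) e']
    field_simp
    ring
  refine ⟨⟨a - u * u * c, _, hr⟩, ?_⟩
  have h1 : Ideal.Quotient.mk (Ideal.span {u * u}) (a - u * u * c) = z.fst := by
    rw [← ha, Ideal.Quotient.mk_eq_mk_iff_sub_mem, Ideal.mem_span_singleton]
    exact ⟨-c, by ring⟩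
  have h2 : Ideal.Quotient.mk (Ideal.span {u * u})
      (delta D ⟨a - u * u * c, _, hr⟩) = z.snd := by
    rw [delta_eq D hr, ← he, Ideal.Quotient.mk_eq_mk_iff_sub_mem, Ideal.mem_span_singleton]
    exact ⟨-e', by ring⟩
  ext
  · simpa [toDual] using h1
  · simpa [toDual] using h2

lemma toDual_ker {u : A} (hu : u ≠ 0) :
    RingHom.ker (toDual D (u * u)) = Ideal.span {⟨u * u, sq_mem D u⟩} := by
  ext r
  rw [RingHom.mem_ker, Ideal.mem_span_singleton]
  constructor
  · intro h
    have h1 := congrArg TrivSqZeroExt.fst h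
    have h2 := congrArg TrivSqZeroExt.snd h
    simp only [toDual, RingHom.coe_mk, MonoidHom.coe_mk, OneHom.coe_mk, TrivSqZeroExt.fst_add,
      TrivSqZeroExt.fst_inl, TrivSqZeroExt.fst_inr, add_zero, TrivSqZeroExt.fst_zero,
      TrivSqZeroExt.snd_add, TrivSqZeroExt.snd_inl, TrivSqZeroExt.snd_inr, zero_add,
      TrivSqZeroExt.snd_zero] at h1 h2
    rw [Ideal.Quotient.eq_zero_iff_mem, Ideal.mem_span_singleton] at h1 h2
    obtain ⟨a, ha⟩ := h1
    obtain ⟨e, he⟩ := h2
    have hu1 : algebraMap A K (u * u) ≠ 0 := by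
      rw [Ne, map_eq_zero_iff _ (IsFractionRing.injective A K)]
      exact mul_ne_zero hu hu
    have h3 := delta_spec D r
    rw [ha, he, D_sq_mul, map_mul _ (u * u) e] at h3
    exact ⟨⟨a, e, mul_left_cancel₀ hu1 h3⟩, Subtype.ext ha⟩
  · rintro ⟨t, rfl⟩
    have h0 : delta D ⟨u * u, sq_mem D u⟩ = 0 := delta_eq D (by rw [D_mul_self, map_zero])
    ext
    · simp only [toDual, RingHom.coe_mk, MonoidHom.coe_mk, OneHom.coe_mk, TrivSqZeroExt.fst_add,
        TrivSqZeroExt.fst_inl, TrivSqZeroExt.fst_inr, add_zero, TrivSqZeroExt.fst_zero]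
      rw [Ideal.Quotient.eq_zero_iff_mem, Ideal.mem_span_singleton]
      exact ⟨t, rfl⟩
    · simp only [toDual, RingHom.coe_mk, MonoidHom.coe_mk, OneHom.coe_mk,
        TrivSqZeroExt.snd_add, TrivSqZeroExt.snd_inl, TrivSqZeroExt.snd_inr, zero_add,
        TrivSqZeroExt.snd_zero]
      rw [Ideal.Quotient.eq_zero_iff_mem, Ideal.mem_span_singleton, delta_mul, h0, mul_zero,
        add_zero]
      exact ⟨_, rfl⟩

omit [IsDomain A] [CharP A 2] in
lemma noeth_dual (B : Type*) [CommRing B] [IsNoetherianRing B] : IsNoetherianRing (DualNumber B) := by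
  have h : IsNoetherian B (DualNumber B) := inferInstanceAs (IsNoetherian B (B × B))
  exact isNoetherian_of_tower B h

lemma isNoetherianRing_ringOf [IsNoetherianRing A]
    (hD : ∀ g : A, g ≠ 0 → ∃ b : A, D b = (algebraMap A K g)⁻¹) :
    IsNoetherianRing (ringOf D) := by
  rw [isNoetherianRing_iff_ideal_fg]
  intro J
  by_cases hJ : J = ⊥
  · rw [hJ]
    exact Submodule.fg_bot
  · obtain ⟨u, huJ, hu⟩ := Submodule.exists_mem_ne_zero_of_ne_bot hJ
    have hu0 : (u : A) ≠ 0 := fun h => hu (Subtype.ext h)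
    have hn := noeth_dual (A ⧸ Ideal.span {(u : A) * u})
    refine Ideal.fg_of_fg_map_of_fg_inf_ker_of_surjective (f := toDual D ((u : A) * u)) ?_ ?_
      (toDual_surjective D hD hu0)
    · exact IsNoetherian.noetherian _
    · rw [toDual_ker D hu0]
      have : J ⊓ Ideal.span {⟨(u : A) * u, sq_mem D u⟩} =
          Ideal.span {(⟨(u : A) * u, sq_mem D u⟩ : ringOf D)} := by
        rw [inf_eq_right, Ideal.span_singleton_le_iff_mem]
        exact J.mul_mem_left u huJ
      rw [this]
      exact ⟨{_}, by rw [Finset.coe_singleton]⟩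

/-! ### The primes of the ring -/

/-- The prime of `R` under a prime of `A`. -/
def down (Q : PrimeSpectrum A) : PrimeSpectrum (ringOf D) :=
  ⟨Q.asIdeal.comap (ringOf D).subtype, Q.isPrime.comap _⟩

lemma mem_down {Q : PrimeSpectrum A} {r : ringOf D} :
    r ∈ (down D Q).asIdeal ↔ (r : A) ∈ Q.asIdeal := Iff.rfl

/-- The prime of `A` over a prime of `R`. -/
def up (P : PrimeSpectrum (ringOf D)) : PrimeSpectrum A where
  asIdeal :=
    { carrier := {a | (⟨a * a, sq_mem D a⟩ : ringOf D) ∈ P.asIdeal}
      add_mem' := by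
        intro a b ha hb
        have e : (⟨(a + b) * (a + b), sq_mem D (a + b)⟩ : ringOf D) =
            ⟨a * a, sq_mem D a⟩ + ⟨b * b, sq_mem D b⟩ := by
          apply Subtype.ext
          show (a + b) * (a + b) = a * a + b * b
          exact CharTwo.add_mul_self a b
        show (⟨(a + b) * (a + b), sq_mem D (a + b)⟩ : ringOf D) ∈ P.asIdeal
        rw [e]
        exact P.asIdeal.add_mem ha hb
      zero_mem' := by
        have e : (⟨(0 : A) * 0, sq_mem D 0⟩ : ringOf D) = 0 := by
          apply Subtype.ext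
          exact mul_zero _
        show (⟨(0 : A) * 0, sq_mem D 0⟩ : ringOf D) ∈ P.asIdeal
        rw [e]
        exact P.asIdeal.zero_mem
      smul_mem' := by
        intro c a ha
        have e : (⟨(c * a) * (c * a), sq_mem D (c * a)⟩ : ringOf D) =
            ⟨c * c, sq_mem D c⟩ * ⟨a * a, sq_mem D a⟩ := by
          apply Subtype.ext
          show (c * a) * (c * a) = c * c * (a * a)
          ring
        show (⟨(c * a) * (c * a), sq_mem D (c * a)⟩ : ringOf D) ∈ P.asIdeal
        rw [e]
        exact P.asIdeal.mul_mem_left _ ha }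
  isPrime := by
    refine ⟨?_, ?_⟩
    · rw [Ideal.ne_top_iff_one]
      intro h
      have e : (⟨(1 : A) * 1, sq_mem D 1⟩ : ringOf D) = 1 := by
        apply Subtype.ext
        exact mul_one _
      have h' : (⟨(1 : A) * 1, sq_mem D 1⟩ : ringOf D) ∈ P.asIdeal := h
      rw [e] at h'
      exact (Ideal.ne_top_iff_one _).1 P.isPrime.ne_top h'
    · intro a b hab
      have e : (⟨(a * b) * (a * b), sq_mem D (a * b)⟩ : ringOf D) =
          ⟨a * a, sq_mem D a⟩ * ⟨b * b, sq_mem D b⟩ := by
        apply Subtype.ext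
        show (a * b) * (a * b) = a * a * (b * b)
        ring
      have h' : (⟨(a * b) * (a * b), sq_mem D (a * b)⟩ : ringOf D) ∈ P.asIdeal := hab
      rw [e] at h'
      exact P.isPrime.mem_or_mem h'

lemma mem_up {P : PrimeSpectrum (ringOf D)} {a : A} :
    a ∈ (up D P).asIdeal ↔ (⟨a * a, sq_mem D a⟩ : ringOf D) ∈ P.asIdeal := Iff.rfl

/-- The spectra of `R` and of `A` are isomorphic ordered sets. -/
def specIso : PrimeSpectrum A ≃o PrimeSpectrum (ringOf D) where
  toFun := down D
  invFun := up D
  left_inv Q := by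
    ext a
    show a ∈ (up D (down D Q)).asIdeal ↔ a ∈ Q.asIdeal
    rw [mem_up, mem_down]
    exact ⟨fun h => (Q.isPrime.mem_or_mem h).elim id id, fun h => Q.asIdeal.mul_mem_left a h⟩
  right_inv P := by
    ext r
    show r ∈ (down D (up D P)).asIdeal ↔ r ∈ P.asIdeal
    rw [mem_down, mem_up]
    have e : (⟨(r : A) * r, sq_mem D r⟩ : ringOf D) = r * r := rfl
    rw [e]
    exact ⟨fun h => (P.isPrime.mem_or_mem h).elim id id, fun h => P.asIdeal.mul_mem_left r h⟩
  map_rel_iff' := by
    intro Q Q'
    show down D Q ≤ down D Q' ↔ Q ≤ Q'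
    constructor
    · intro h a ha
      have h1 : (⟨a * a, sq_mem D a⟩ : ringOf D) ∈ (down D Q).asIdeal :=
        (mem_down D).2 (Q.asIdeal.mul_mem_left a ha)
      have h2 : a * a ∈ Q'.asIdeal := (mem_down D).1 (h h1)
      exact (Q'.isPrime.mem_or_mem h2).elim id id
    · intro h r hr
      exact h hr

lemma ringKrullDim_ringOf : ringKrullDim (ringOf D) = ringKrullDim A :=
  (Order.krullDim_eq_of_orderIso (specIso D)).symm

/-- Every prime of height one is the annihilator of a class of `A / R`. -/
lemma height_one [IsNoetherianRing A] [UniqueFactorizationMonoid A]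
    (hD : ∀ g : A, g ≠ 0 → ∃ b : A, D b = (algebraMap A K g)⁻¹) (P : Ideal (ringOf D))
    [P.IsPrime] (hP : P.height = 1) :
    ∃ b : A, ∀ r : ringOf D, r ∈ P ↔ (r : A) * b ∈ ringOf D := by
  have hnoeth := isNoetherianRing_ringOf D hD
  -- a prime element `f` of `A` with `f ^ 2 ∈ P`
  obtain ⟨r, hrP, hr⟩ := Submodule.exists_mem_ne_zero_of_ne_bot (Ideal.ne_bot_of_height_eq_one hP)
  have key : ∀ a : A, a ≠ 0 → (⟨a * a, sq_mem D a⟩ : ringOf D) ∈ P →
      ∃ f : A, Prime f ∧ (⟨f * f, sq_mem D f⟩ : ringOf D) ∈ P := by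
    intro a
    refine UniqueFactorizationMonoid.induction_on_prime a ?_ ?_ ?_
    · intro h
      exact absurd rfl h
    · intro x hx hx0 hxP
      exfalso
      obtain ⟨y, hy⟩ := hx.exists_right_inv
      have e : (⟨x * x, sq_mem D x⟩ : ringOf D) * ⟨y * y, sq_mem D y⟩ = 1 := by
        apply Subtype.ext
        show x * x * (y * y) = 1
        linear_combination (x * y + 1) * hy
      have h1 : (1 : ringOf D) ∈ P := by
        rw [← e]
        exact P.mul_mem_right _ hxP
      exact (Ideal.ne_top_iff_one P).1 (Ideal.IsPrime.ne_top') h1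
    · intro x p hx hp ih hpx hpxP
      have e : (⟨p * x * (p * x), sq_mem D (p * x)⟩ : ringOf D) =
          ⟨p * p, sq_mem D p⟩ * ⟨x * x, sq_mem D x⟩ := by
        apply Subtype.ext
        show p * x * (p * x) = p * p * (x * x)
        ring
      rw [e] at hpxP
      rcases Ideal.IsPrime.mem_or_mem ‹P.IsPrime› hpxP with h | h
      · exact ⟨p, hp, h⟩
      · exact ih hx h
  obtain ⟨f, hf, hfP⟩ := key (r : A) (fun h => hr (Subtype.ext h)) (by
    have e : (⟨(r : A) * r, sq_mem D r⟩ : ringOf D) = r * r := rfl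
    rw [e]
    exact P.mul_mem_left r hrP)
  -- the prime `f A ∩ R`
  have hfprime : (Ideal.span {f}).IsPrime := (Ideal.span_singleton_prime hf.ne_zero).2 hf
  have hPf : (Ideal.span {f}).comap (ringOf D).subtype = P := by
    have hpr : ((Ideal.span {f}).comap (ringOf D).subtype).IsPrime := hfprime.comap _
    have hfh : ((Ideal.span {f}).comap (ringOf D).subtype).FiniteHeight := inferInstance
    refine Ideal.eq_of_le_of_height_le (I := (Ideal.span {f}).comap (ringOf D).subtype)
      (J := P) ?_ ?_
    · intro t ht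
      have ht' : (t : A) ∈ Ideal.span {f} := ht
      obtain ⟨a, ha⟩ := Ideal.mem_span_singleton.1 ht'
      have e : t * t = ⟨f * f, sq_mem D f⟩ * ⟨a * a, sq_mem D a⟩ := by
        apply Subtype.ext
        show (t : A) * t = f * f * (a * a)
        rw [ha]
        ring
      have h1 : t * t ∈ P := by
        rw [e]
        exact P.mul_mem_right _ hfP
      exact (Ideal.IsPrime.mem_or_mem ‹P.IsPrime› h1).elim id id
    · rw [hP, Order.one_le_iff_ne_zero, Ne, Ideal.height_eq_zero_iff_eq_bot]
      intro hbot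
      have h1 : (⟨f * f, sq_mem D f⟩ : ringOf D) ∈
          (Ideal.span {f}).comap (ringOf D).subtype :=
        Ideal.mem_comap.2 (Ideal.mem_span_singleton.2 ⟨f, rfl⟩)
      rw [hbot, Ideal.mem_bot] at h1
      have h2 : f * f = 0 := congrArg Subtype.val h1
      exact hf.ne_zero (mul_self_eq_zero.1 h2)
  obtain ⟨b, hb⟩ := hD f hf.ne_zero
  have hf1 : algebraMap A K f ≠ 0 := by
    rw [Ne, map_eq_zero_iff _ (IsFractionRing.injective A K)]
    exact hf.ne_zero
  refine ⟨b, fun t => ?_⟩
  rw [← hPf]
  have hDt : D ((t : A) * b) = algebraMap A K t / algebraMap A K f +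
      algebraMap A K (b * delta D t) := by
    rw [D.leibniz, hb, delta_spec, map_mul, div_eq_mul_inv]
  constructor
  · intro ht
    have ht' : (t : A) ∈ Ideal.span {f} := ht
    obtain ⟨a, ha⟩ := Ideal.mem_span_singleton.1 ht'
    refine ⟨a + b * delta D t, ?_⟩
    rw [hDt, map_add, ha, map_mul _ f a, mul_div_cancel_left₀ _ hf1]
  · rintro ⟨e, he⟩
    show (t : A) ∈ Ideal.span {f}
    rw [Ideal.mem_span_singleton]
    refine ⟨e - b * delta D t, ?_⟩
    apply IsFractionRing.injective A K
    rw [hDt] at he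
    rw [map_mul _ f, map_sub, ← he]
    field_simp
    ring

/-! ### The fraction field -/

lemma exists_frac (z : K) : ∃ r t : ringOf D, t ≠ 0 ∧
    z = algebraMap A K (r : A) / algebraMap A K (t : A) := by
  obtain ⟨a, b, hb, rfl⟩ := IsFractionRing.div_surjective (A := A) z
  obtain ⟨u, v, hv, huv⟩ := IsFractionRing.div_surjective (A := A) (D (a * b))
  have hb0 : b ≠ 0 := nonZeroDivisors.ne_zero hb
  have hv0 : v ≠ 0 := nonZeroDivisors.ne_zero hv
  have hb1 : algebraMap A K b ≠ 0 := by
    rw [Ne, map_eq_zero_iff _ (IsFractionRing.injective A K)]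
    exact hb0
  have hv1 : algebraMap A K v ≠ 0 := by
    rw [Ne, map_eq_zero_iff _ (IsFractionRing.injective A K)]
    exact hv0
  refine ⟨⟨v * v * (a * b), u * v, ?_⟩, ⟨(v * b) * (v * b), sq_mem D (v * b)⟩, ?_, ?_⟩
  · rw [D_sq_mul, ← huv, map_mul, map_mul]
    field_simp
  · intro h
    have h2 : v * b * (v * b) = 0 := congrArg Subtype.val h
    exact mul_ne_zero hv0 hb0 (mul_self_eq_zero.1 h2)
  · simp only [map_mul]
    field_simp

/-- Every prime of height one is the annihilator of a class of `Rⁿ / R`. -/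
lemma height_one_frac [IsNoetherianRing A] [UniqueFactorizationMonoid A]
    (hD : ∀ g : A, g ≠ 0 → ∃ b : A, D b = (algebraMap A K g)⁻¹) (P : Ideal (ringOf D))
    (hP : P.IsPrime) (hP1 : P.height = 1) :
    IsAssociated P (normalization (ringOf D) ⧸ image (ringOf D)) := by
  obtain ⟨b, hb⟩ := height_one D hD P hP1
  -- `b` as an element of the fraction field of `R`
  obtain ⟨v, t, ht, hvt⟩ := exists_frac D (algebraMap A K b)
  have hinj := IsFractionRing.injective (ringOf D) (FractionRing (ringOf D))
  have ht0 : algebraMap (ringOf D) (FractionRing (ringOf D)) t ≠ 0 := by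
    rw [Ne, map_eq_zero_iff _ hinj]
    exact ht
  have htA : (t : A) ≠ 0 := fun h => ht (Subtype.ext h)
  have htK : algebraMap A K t ≠ 0 := by
    rw [Ne, map_eq_zero_iff _ (IsFractionRing.injective A K)]
    exact htA
  have hbt : (t : A) * b = v := by
    apply IsFractionRing.injective A K
    rw [map_mul, hvt, mul_div_cancel₀ _ htK]
  set β : FractionRing (ringOf D) := algebraMap _ _ v / algebraMap _ _ t with hβ
  -- `R` multiples
  have key : ∀ r s : ringOf D, algebraMap (ringOf D) (FractionRing (ringOf D)) r * β =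
      algebraMap _ _ s ↔ (r : A) * b = s := by
    intro r s
    rw [hβ, mul_div_assoc', div_eq_iff ht0, ← map_mul, ← map_mul, hinj.eq_iff]
    constructor
    · intro h
      have h1 : (r : A) * v = s * t := congrArg Subtype.val h
      apply mul_left_cancel₀ htA
      rw [← hbt] at h1
      linear_combination h1
    · intro h
      apply Subtype.ext
      show (r : A) * v = s * t
      rw [← hbt, ← h]
      ring
  -- `β` is integral
  have hint : β ∈ normalization (ringOf D) := by
    have h2 : β * β = algebraMap _ _ (⟨b * b, sq_mem D b⟩ : ringOf D) := by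
      have e : v * v = ⟨b * b, sq_mem D b⟩ * (t * t) := by
        apply Subtype.ext
        show (v : A) * v = b * b * (t * t)
        rw [← hbt]
        ring
      rw [hβ, div_mul_div_comm, div_eq_iff (mul_ne_zero ht0 ht0), ← map_mul, ← map_mul,
        ← map_mul, e]
    show IsIntegral (ringOf D) β
    refine ⟨Polynomial.X ^ 2 - Polynomial.C (⟨b * b, sq_mem D b⟩ : ringOf D),
      Polynomial.monic_X_pow_sub_C _ two_ne_zero, ?_⟩
    rw [Polynomial.eval₂_sub, Polynomial.eval₂_X_pow, Polynomial.eval₂_C, pow_two, h2, sub_self]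
  refine ⟨hP, Submodule.Quotient.mk ⟨β, hint⟩, fun r => ?_⟩
  rw [hb r, ← Submodule.Quotient.mk_smul, Submodule.Quotient.mk_eq_zero, image,
    LinearMap.mem_range]
  constructor
  · intro h
    refine ⟨⟨(r : A) * b, h⟩, ?_⟩
    apply Subtype.ext
    show algebraMap (ringOf D) (FractionRing (ringOf D)) ⟨(r : A) * b, h⟩ = r • β
    rw [Algebra.smul_def]
    exact ((key r _).2 rfl).symm
  · rintro ⟨s, hs⟩
    have hs' : algebraMap (ringOf D) (FractionRing (ringOf D)) s = r • β :=
      congrArg Subtype.val hs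
    rw [Algebra.smul_def] at hs'
    have h3 := (key r s).1 hs'.symm
    rw [h3]
    exact s.2

end General

/-! ### The example -/

open MvPolynomial

/-- The field `k = 𝔽₂(b_0, b_1, …)`. -/
abbrev kk : Type := FractionRing (MvPolynomial ℕ (ZMod 2))

/-- The polynomial ring `k[x_1, …, x_d]`. -/
abbrev AA (d : ℕ) : Type := MvPolynomial (Fin d) kk

/-- Its fraction field. -/
abbrev KK (d : ℕ) : Type := FractionRing (AA d)

lemma countable_AA (d : ℕ) : Countable (AA d) := by
  have h1 : Countable (MvPolynomial ℕ (ZMod 2)) := by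
    rw [← Cardinal.mk_le_aleph0_iff]
    refine (MvPolynomial.cardinalMk_le_max (σ := ℕ) (R := ZMod 2)).trans ?_
    refine max_le (max_le ?_ ?_) le_rfl
    · exact Cardinal.mk_le_aleph0
    · exact Cardinal.mk_le_aleph0
  have h2 : Countable kk := by
    rw [← Cardinal.mk_le_aleph0_iff]
    refine (IsLocalization.cardinalMk_le (nonZeroDivisors (MvPolynomial ℕ (ZMod 2)))
      (L := kk)).trans ?_
    exact Cardinal.mk_le_aleph0
  rw [← Cardinal.mk_le_aleph0_iff]
  refine (MvPolynomial.cardinalMk_le_max (σ := Fin d) (R := kk)).trans ?_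
  refine max_le (max_le ?_ ?_) le_rfl
  · exact Cardinal.mk_le_aleph0
  · exact Cardinal.mk_le_aleph0

/-- The derivation, first as a ring homomorphism to the dual numbers. -/
lemma exists_hom (d : ℕ) (g : ℕ → KK d) : ∃ Φ : AA d →+* DualNumber (KK d),
    (∀ a, (Φ a).fst = algebraMap (AA d) (KK d) a) ∧
    ∀ n, (Φ (C (algebraMap (MvPolynomial ℕ (ZMod 2)) kk (X n)))).snd = g n := by
  let fstH : DualNumber (KK d) →+* KK d := (TrivSqZeroExt.fstHom (KK d) (KK d) (KK d)).toRingHom
  have hfst : ∀ z, fstH z = z.fst := fun z => rfl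
  -- on the polynomials in the `b_n`
  let ι : MvPolynomial ℕ (ZMod 2) →+* KK d :=
    (algebraMap (AA d) (KK d)).comp (C.comp (algebraMap (MvPolynomial ℕ (ZMod 2)) kk))
  let φ0 : MvPolynomial ℕ (ZMod 2) →+* DualNumber (KK d) :=
    eval₂Hom ((TrivSqZeroExt.inlHom (KK d) (KK d)).comp (ι.comp C))
      (fun n => TrivSqZeroExt.inl (ι (X n)) + TrivSqZeroExt.inr (g n))
  have h0 : fstH.comp φ0 = ι := by
    refine MvPolynomial.ringHom_ext ?_ ?_
    · intro r
      simp [φ0, hfst]
    · intro n
      simp [φ0, hfst]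
  have hunit : ∀ y : nonZeroDivisors (MvPolynomial ℕ (ZMod 2)), IsUnit (φ0 y) := by
    intro y
    rw [TrivSqZeroExt.isUnit_iff_isUnit_fst, isUnit_iff_ne_zero]
    have h1 : (φ0 y).fst = ι y := congrArg (fun f : MvPolynomial ℕ (ZMod 2) →+* KK d => f y) h0
    rw [h1]
    have hy : (y : MvPolynomial ℕ (ZMod 2)) ≠ 0 := nonZeroDivisors.ne_zero y.2
    have hinj : Function.Injective ι :=
      (IsFractionRing.injective (AA d) (KK d)).comp ((C_injective (Fin d) kk).comp
        (IsFractionRing.injective (MvPolynomial ℕ (ZMod 2)) kk))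
    rw [Ne, map_eq_zero_iff _ hinj]
    exact hy
  let φ1 : kk →+* DualNumber (KK d) := IsLocalization.lift hunit
  have h1 : fstH.comp φ1 = (algebraMap (AA d) (KK d)).comp C := by
    refine IsLocalization.ringHom_ext (nonZeroDivisors (MvPolynomial ℕ (ZMod 2))) ?_
    rw [RingHom.comp_assoc, IsLocalization.lift_comp, h0]
    rfl
  let Φ : AA d →+* DualNumber (KK d) :=
    eval₂Hom φ1 (fun i => TrivSqZeroExt.inl (algebraMap (AA d) (KK d) (X i)))
  have h2 : fstH.comp Φ = algebraMap (AA d) (KK d) := by
    refine MvPolynomial.ringHom_ext ?_ ?_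
    · intro r
      have := congrArg (fun f : kk →+* KK d => f r) h1
      simpa [Φ] using this
    · intro i
      simp [Φ, hfst]
  refine ⟨Φ, fun a => congrArg (fun f : AA d →+* KK d => f a) h2, fun n => ?_⟩
  have e1 : Φ (C (algebraMap (MvPolynomial ℕ (ZMod 2)) kk (X n))) = φ0 (X n) := by
    simp only [Φ, coe_eval₂Hom, eval₂_C]
    exact IsLocalization.lift_eq hunit (X n)
  rw [e1]
  simp [φ0]

lemma dual_snd_mul {L : Type*} [Field L] (x y : DualNumber L) :
    (x * y).snd = x.fst * y.snd + y.fst * x.snd := by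
  rw [TrivSqZeroExt.snd_mul]
  simp [mul_comm]

/-- A ring homomorphism to the dual numbers over `algebraMap` gives a derivation. -/
def derOf {A L : Type*} [CommRing A] [Field L] [Algebra A L] (Φ : A →+* DualNumber L)
    (h : ∀ a, (Φ a).fst = algebraMap A L a) : Der A L where
  toFun a := (Φ a).snd
  map_add' a b := by rw [map_add, TrivSqZeroExt.snd_add]
  leibniz' a b := by rw [map_mul, dual_snd_mul, h, h]

lemma exists_derivation (d : ℕ) : ∃ D : Der (AA d) (KK d),
    ∀ g : AA d, g ≠ 0 → ∃ b : AA d, D b = (algebraMap (AA d) (KK d) g)⁻¹ := by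
  have := countable_AA d
  obtain ⟨q, hq⟩ := exists_surjective_nat (AA d)
  obtain ⟨Φ, h1, h2⟩ := exists_hom d (fun n => (algebraMap (AA d) (KK d) (q n))⁻¹)
  refine ⟨derOf Φ h1, fun g _ => ?_⟩
  obtain ⟨n, rfl⟩ := hq g
  exact ⟨C (algebraMap (MvPolynomial ℕ (ZMod 2)) kk (X n)), h2 n⟩

instance charP_kk : CharP kk 2 :=
  charP_of_injective_algebraMap (IsFractionRing.injective (MvPolynomial ℕ (ZMod 2)) kk) 2

instance charP_AA (d : ℕ) : CharP (AA d) 2 :=
  charP_of_injective_ringHom (C_injective (Fin d) kk) 2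

/-- **Noetherian domains of every dimension all of whose height-one primes are associated to the
normalization quotient.** -/
theorem result (d : ℕ) : ∃ (R : Type) (_ : CommRing R) (_ : IsDomain R),
    IsNoetherianRing R ∧ ringKrullDim R = d ∧ HeightOneAssociated R := by
  obtain ⟨D, hD⟩ := exists_derivation d
  refine ⟨ringOf D, inferInstance, inferInstance, isNoetherianRing_ringOf D hD, ?_,
    fun P hP hP1 => height_one_frac D hD P hP hP1⟩
  rw [ringKrullDim_ringOf, MvPolynomial.ringKrullDim_of_isNoetherianRing,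
    ringKrullDim_eq_zero_of_field, zero_add, Nat.card_eq_fintype_card, Fintype.card_fin]

end Pool.Agent.Results.MP_b58525_ag.AllDimensions
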